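import Pool.Agent.L7h31.IE.Stm

/-!
# Project IE: part ALIVE
-/

set_option autoImplicit false

namespace Pool.Agent.L7h29.IE

open scoped InnerProductSpace
open Pool.Agent.L7h31.IE

theorem L_add_left {d : ℕ} (A B C : E d × ℝ) : L (A + B) C = L A C + L B C := by
  unfold L
  rw [Prod.fst_add, Prod.snd_add, inner_add_left]
  ring

theorem L_comm {d : ℕ} (A B : E d × ℝ) : L A B = L B A := by
  unfold L
  rw [real_inner_comm]
  ring

theorem L_add_right {d : ℕ} (A B C : E d × ℝ) : L A (B + C) = L A B + L A C := by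
  rw [L_comm, L_add_left, L_comm B, L_comm C]

theorem L_smul_left {d : ℕ} (s : ℝ) (A B : E d × ℝ) : L (s • A) B = s * L A B := by
  unfold L
  rw [Prod.smul_fst, Prod.smul_snd, real_inner_smul_left, smul_eq_mul]
  ring

theorem L_smul_right {d : ℕ} (s : ℝ) (A B : E d × ℝ) : L A (s • B) = s * L A B := by
  rw [L_comm, L_smul_left, L_comm]

/-- vectors orthogonal to a timelike vector are spacelike -/
theorem L_pos {d : ℕ} (A Z : E d × ℝ) (hZ : L Z Z < 0) (h : L A Z = 0) (hA : A ≠ 0) :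
    0 < L A A := by
  unfold L at *
  rw [real_inner_self_eq_norm_sq] at *
  have h1 : |⟪A.1, Z.1⟫_ℝ| ≤ ‖A.1‖ * ‖Z.1‖ := abs_real_inner_le_norm _ _
  have h2 : ⟪A.1, Z.1⟫_ℝ = A.2 * Z.2 := by linarith
  rw [h2, abs_mul] at h1
  have hZ1 : ‖Z.1‖ < |Z.2| := by
    apply lt_of_pow_lt_pow_left₀ 2 (abs_nonneg _)
    rw [sq_abs]; nlinarith
  have hZ0 : 0 < |Z.2| := lt_of_le_of_lt (norm_nonneg _) hZ1
  rcases eq_or_ne A.1 0 with h0 | h0
  · exfalso
    apply hA
    have h3 : A.2 * Z.2 = 0 := by rw [← h2, h0, inner_zero_left]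
    have h4 : A.2 = 0 := by
      rcases mul_eq_zero.1 h3 with h5 | h5
      · exact h5
      · rw [h5, abs_zero] at hZ0; exact absurd hZ0 (lt_irrefl _)
    exact Prod.ext h0 h4
  · have hA0 : 0 < ‖A.1‖ := norm_pos_iff.2 h0
    have h3 : |A.2| * |Z.2| < ‖A.1‖ * |Z.2| :=
      lt_of_le_of_lt h1 (mul_lt_mul_of_pos_left hZ1 hA0)
    have h4 : |A.2| < ‖A.1‖ := lt_of_mul_lt_mul_right h3 hZ0.le
    have h5 : |A.2| ^ 2 < ‖A.1‖ ^ 2 := pow_lt_pow_left₀ h4 (abs_nonneg _) (by norm_num)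
    rw [sq_abs] at h5
    nlinarith

/-- the Lorentz vector of an affine functional -/
noncomputable def vec {d : ℕ} (c : E d) (r : ℝ) (φ : E d →ᵃ[ℝ] ℝ) : E d × ℝ :=
  (r • (InnerProductSpace.toDual ℝ (E d)).symm (LinearMap.toContinuousLinearMap φ.linear), -φ c)

theorem L_vec {d : ℕ} (c : E d) (r : ℝ) (hr : 0 < r) (φ : E d →ᵃ[ℝ] ℝ) (y : E d) :
    L (vec c r φ) (lift c r y) = φ y := by
  unfold L vec lift
  simp only
  rw [real_inner_smul_left, real_inner_smul_right, InnerProductSpace.toDual_symm_apply]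
  have h1 : φ y = φ.linear (y - c) + φ c := by
    have := φ.map_vadd c (y - c)
    simpa using this
  rw [h1]
  have h2 : (LinearMap.toContinuousLinearMap φ.linear) (y - c) = φ.linear (y - c) := rfl
  rw [h2]
  field_simp
  ring

/-- two points of the closed ball -/
theorem lift_neg {d : ℕ} (c : E d) (r : ℝ) (hr : 0 < r) (y z : E d) (hy : dist y c ≤ r)
    (hz : dist z c ≤ r) (hyz : y ≠ z) : L (lift c r y) (lift c r z) < 0 := by
  have h1 : ∀ w : E d, dist w c ≤ r → ‖r⁻¹ • (w - c)‖ ≤ 1 := by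
    intro w hw
    rw [norm_smul, norm_inv, Real.norm_eq_abs, abs_of_pos hr, ← dist_eq_norm,
      inv_mul_le_iff₀ hr, mul_one]
    exact hw
  have h2 := h1 y hy
  have h3 := h1 z hz
  unfold L lift
  simp only
  set a := r⁻¹ • (y - c) with ha
  set b := r⁻¹ • (z - c) with hb
  have hab : a ≠ b := by
    intro h
    apply hyz
    have h4 : y - c = z - c := smul_right_injective (E d) (inv_ne_zero hr.ne') h
    exact sub_left_injective h4
  have h5 : 0 < ‖a - b‖ ^ 2 := by
    have : 0 < ‖a - b‖ := norm_pos_iff.2 (sub_ne_zero.2 hab)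
    positivity
  rw [norm_sub_sq_real] at h5
  nlinarith [norm_nonneg a, norm_nonneg b]

theorem lift_nonpos {d : ℕ} (c : E d) (r : ℝ) (hr : 0 < r) (y : E d) (hy : dist y c ≤ r) :
    L (lift c r y) (lift c r y) ≤ 0 := by
  have h1 : ‖r⁻¹ • (y - c)‖ ≤ 1 := by
    rw [norm_smul, norm_inv, Real.norm_eq_abs, abs_of_pos hr, ← dist_eq_norm,
      inv_mul_le_iff₀ hr, mul_one]
    exact hy
  unfold L lift
  simp only
  rw [real_inner_self_eq_norm_sq]
  nlinarith [norm_nonneg (r⁻¹ • (y - c))]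

theorem two_neg {d : ℕ} (c : E d) (r : ℝ) (hr : 0 < r) (y z : E d) (hy : dist y c ≤ r)
    (hz : dist z c ≤ r) (hyz : y ≠ z) :
    L (lift c r y + lift c r z) (lift c r y + lift c r z) < 0 := by
  rw [L_add_left, L_add_right, L_add_right, L_comm (lift c r z) (lift c r y)]
  have h1 := lift_nonpos c r hr y hy
  have h2 := lift_nonpos c r hr z hz
  have h3 := lift_neg c r hr y z hy hz hyz
  linarith

/-- vectors which are orthogonal to a star vanish -/
theorem D_zero {d : ℕ} {ι : Type} (c : E d) (r : ℝ) (hr : 0 < r) (t : E d) (F : ι → E d)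
    (hφ : ∀ φ : E d →ᵃ[ℝ] ℝ, φ t = 0 → (∀ i, φ (F i) = 0) → φ = 0) (D : E d × ℝ)
    (h1 : L D (lift c r t) = 0) (h2 : ∀ i, L D (lift c r (F i)) = 0) : D = 0 := by
  set ℓ : E d →ₗ[ℝ] ℝ := r⁻¹ • (innerSL ℝ D.1 : E d →L[ℝ] ℝ).toLinearMap with hℓ
  set φ : E d →ᵃ[ℝ] ℝ := ℓ.toAffineMap + AffineMap.const ℝ (E d) (-ℓ c - D.2) with hφd
  have hφy : ∀ y, φ y = L D (lift c r y) := by
    intro y
    have e1 : φ y = ℓ y + (-ℓ c - D.2) := rfl
    have e2 : ∀ z, ℓ z = r⁻¹ * ⟪D.1, z⟫_ℝ := fun z => rfl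
    rw [e1, e2, e2]
    unfold L lift
    simp only
    rw [real_inner_smul_right, inner_sub_right]
    ring
  have h0 := hφ φ (by rw [hφy]; exact h1) (fun i => by rw [hφy]; exact h2 i)
  have h3 : ∀ y, L D (lift c r y) = 0 := fun y => by rw [← hφy, h0]; rfl
  have h4 : D.2 = 0 := by
    have := h3 c
    unfold L lift at this
    simp only [sub_self, smul_zero, inner_zero_right] at this
    linarith
  have h5 : D.1 = 0 := by
    have := h3 (c + D.1)
    unfold L lift at this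
    simp only [add_sub_cancel_left, h4, real_inner_smul_right] at this
    rw [real_inner_self_eq_norm_sq] at this
    have h6 : ‖D.1‖ ^ 2 = 0 := by
      have h7 : r⁻¹ * ‖D.1‖ ^ 2 = 0 := by linarith
      rcases mul_eq_zero.1 h7 with h8 | h8
      · exact absurd h8 (inv_ne_zero hr.ne')
      · exact h8
    exact norm_eq_zero.1 (pow_eq_zero_iff (by norm_num) |>.1 h6)
  exact Prod.ext h5 h4

/-- normalization -/
theorem L_normalize {d : ℕ} (A : E d × ℝ) (h : 0 < L A A) :
    L ((√(L A A))⁻¹ • A) ((√(L A A))⁻¹ • A) = 1 := by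
  rw [L_smul_left, L_smul_right, ← mul_assoc]
  have h1 : √(L A A) ^ 2 = L A A := Real.sq_sqrt h.le
  have h2 : 0 < √(L A A) := Real.sqrt_pos.2 h
  rw [← mul_inv, ← sq, h1, inv_mul_cancel₀ h.ne']

theorem s_ALIVE (hS : S_STAR) (hR : S_RIDGE) : S_ALIVE := by
  intro d ι _ W t F c r hd hcard ht hF hFt hinj hvert hface hr htc hFc
  obtain ⟨α, β, hαt, hαF, hαW, hβt, hβF, hβW, huniq⟩ :=
    hS d ι W t F hcard ht hF hFt hinj hvert hface
  have hnt : ∀ i : ι, ∃ j : ι, j ≠ i := by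
    intro i
    have : Nontrivial ι := Fintype.one_lt_card_iff_nontrivial.1 (by omega)
    exact exists_ne i
  have hne : Nonempty ι := Fintype.card_pos_iff.1 (by omega)
  set T := lift c r t with hT
  set V : ι → E d × ℝ := fun i => lift c r (F i) with hV
  set A' := vec c r α with hA'
  set B' : ι → E d × ℝ := fun i => vec c r (β i) with hB'
  have hA'y : ∀ y, L A' (lift c r y) = α y := L_vec c r hr α
  have hB'y : ∀ i y, L (B' i) (lift c r y) = β i y := fun i => L_vec c r hr (β i)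
  have hA'pos : 0 < L A' A' := by
    obtain ⟨i⟩ := hne
    obtain ⟨j, hj⟩ := hnt i
    apply L_pos A' (lift c r (F i) + lift c r (F j))
      (two_neg c r hr _ _ (hFc i) (hFc j) (fun h => hj (hinj h).symm))
    · rw [L_add_right, hA'y, hA'y, hαF, hαF, add_zero]
    · intro h0
      have := hA'y t
      rw [h0] at this
      unfold L at this
      simp at this
      linarith
  have hβii : ∀ i, β i (F i) < 0 := fun i =>
    hβW i (F i) (hF i) (hFt i) fun j hj h => hj (hinj h).symm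
  have hB'pos : ∀ i, 0 < L (B' i) (B' i) := by
    intro i
    obtain ⟨j, hj⟩ := hnt i
    apply L_pos (B' i) (lift c r t + lift c r (F j))
      (two_neg c r hr _ _ htc.le (hFc j) (hFt j).symm)
    · rw [L_add_right, hB'y, hB'y, hβt, hβF i j hj, add_zero]
    · intro h0
      have := hB'y i (F i)
      rw [h0] at this
      unfold L at this
      simp at this
      have := hβii i
      linarith
  set A := (√(L A' A'))⁻¹ • A' with hA
  set B : ι → E d × ℝ := fun i => (√(L (B' i) (B' i)))⁻¹ • B' i with hB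
  have hAs : 0 < (√(L A' A'))⁻¹ := inv_pos.2 (Real.sqrt_pos.2 hA'pos)
  have hBs : ∀ i, 0 < (√(L (B' i) (B' i)))⁻¹ := fun i => inv_pos.2 (Real.sqrt_pos.2 (hB'pos i))
  have hAy : ∀ y, L A (lift c r y) = (√(L A' A'))⁻¹ * α y := fun y => by
    rw [hA, L_smul_left, hA'y]
  have hBy : ∀ i y, L (B i) (lift c r y) = (√(L (B' i) (B' i)))⁻¹ * β i y := fun i y => by
    simp only [hB]
    rw [L_smul_left, hB'y]
  have hT1 : ‖T.1‖ = 1 := by
    show ‖r⁻¹ • (t - c)‖ = 1
    rw [norm_smul, norm_inv, Real.norm_eq_abs, abs_of_pos hr, ← dist_eq_norm, htc,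
      inv_mul_cancel₀ hr.ne']
  obtain ⟨i, hi⟩ := hR d ι V B T A (by omega) hT1 rfl (L_normalize A' hA'pos)
    (fun i => L_normalize (B' i) (hB'pos i)) (fun i => lift_nonpos c r hr _ (hFc i))
    (fun i => lift_neg c r hr _ _ htc.le (hFc i) (hFt i).symm)
    (fun i => by rw [hV]; simp only; rw [hAy, hαF, mul_zero])
    (by rw [hT, hAy]; exact mul_pos hAs hαt)
    (fun i => by rw [hT, hBy, hβt, mul_zero])
    (fun i j hj => by rw [hV]; simp only; rw [hBy, hβF i j hj, mul_zero])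
    (fun i => by rw [hV]; simp only; rw [hBy]; exact mul_neg_of_pos_of_neg (hBs i) (hβii i))
    (fun D h1 h2 => D_zero c r hr t F huniq D h1 h2)
  refine ⟨i, A, B i, L_normalize A' hA'pos, L_normalize (B' i) (hB'pos i), hi,
    fun j => by rw [hAy, hαF, mul_zero], fun j hj => by rw [hBy, hβF i j hj, mul_zero],
    fun y hy hyt hyF => ?_, fun y hy hyt hyF => ?_⟩
  · rw [hAy]
    exact mul_neg_of_pos_of_neg hAs (hαW y hy hyt hyF)
  · rw [hBy]
    exact mul_neg_of_pos_of_neg (hBs i) (hβW i y hy hyt hyF)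

end Pool.Agent.L7h29.IE
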