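import Pool.Agent.L7h31.IE.Stm

/-!
# Project IE: parts EDGE and SIMP
-/

set_option autoImplicit false

namespace Pool.Agent.L7h29.IE

open scoped InnerProductSpace
open Pool.Agent.L7h31.IE

theorem s_EDGE : S_EDGE := by
  classical
  intro d p k W x t hp hC I hI a haI
  choose! l hl using hC.face I hI
  set D : Finset (Fin k × Bool) := Finset.univ.filter fun c => c.1 ∈ I ∧ c ≠ a with hD
  have hDm : ∀ c, c ∈ D ↔ c.1 ∈ I ∧ c ≠ a := by intro c; simp [hD]
  have htW : t I ∈ W := hC.tmem I hI
  have htm : ∀ c ∈ D, ∀ w ∈ W, l c w ≤ l c (t I) := by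
    intro c hc
    exact ((hl c ((hDm c).1 hc).1 (t I)).1 (Set.mem_insert _ _)).2
  have hne : (a.1, !a.2) ∈ D := by
    rw [hDm]
    refine ⟨haI, fun h => ?_⟩
    have := congrArg Prod.snd h
    simp at this
  refine ⟨∑ c ∈ D, l c, fun z => ⟨fun hz => ?_, fun hz => ?_⟩⟩
  · have hzW : z ∈ W := by
      rcases hz with rfl | hz
      · exact hC.xmem a
      · rw [Set.mem_singleton_iff] at hz
        rw [hz]; exact htW
    refine ⟨hzW, fun w hw => ?_⟩
    rw [ContinuousLinearMap.sum_apply, ContinuousLinearMap.sum_apply]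
    refine Finset.sum_le_sum fun c hc => ?_
    have h1 : l c z = l c (t I) := by
      refine le_antisymm (htm c hc z hzW) ?_
      rcases hz with rfl | hz
      · exact ((hl c ((hDm c).1 hc).1 (x a)).1
          (Or.inr ⟨a, haI, fun h => ((hDm c).1 hc).2 h.symm, rfl⟩)).2 _ htW
      · rw [Set.mem_singleton_iff] at hz
        rw [hz]
    rw [h1]
    exact htm c hc w hw
  · obtain ⟨hzW, hmax⟩ := hz
    have h1 := hmax (t I) htW
    rw [ContinuousLinearMap.sum_apply, ContinuousLinearMap.sum_apply] at h1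
    have h2 : ∀ c ∈ D, l c z = l c (t I) := by
      have h3 : ∑ c ∈ D, l c z = ∑ c ∈ D, l c (t I) :=
        le_antisymm (Finset.sum_le_sum fun c hc => htm c hc z hzW) h1
      exact (Finset.sum_eq_sum_iff_of_le fun c hc => htm c hc z hzW).1 h3
    have h4 : ∀ c ∈ D, z = t I ∨ ∃ c' : Fin k × Bool, c'.1 ∈ I ∧ c' ≠ c ∧ z = x c' := by
      intro c hc
      have h5 := (hl c ((hDm c).1 hc).1 z).2 ⟨hzW, fun w hw => by
        rw [h2 c hc]; exact htm c hc w hw⟩
      rcases h5 with h5 | h5
      · exact Or.inl h5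
      · exact Or.inr h5
    rcases h4 _ hne with h5 | ⟨c', hc'I, -, hzc'⟩
    · rw [h5]; right; rfl
    · by_cases hca : c' = a
      · rw [hzc', hca]; left; rfl
      · have hc'D : c' ∈ D := (hDm c').2 ⟨hc'I, hca⟩
        rcases h4 c' hc'D with h5 | ⟨c'', -, hne'', h6⟩
        · exact absurd (h5.symm.trans hzc') (hC.txne I hI c')
        · exact absurd (hC.xinj (h6.symm.trans hzc')) hne''

theorem s_SIMP : S_SIMP := by
  classical
  intro d V hV hG
  have hspan : ∀ S : Finset (E d), S ⊆ V → S.card = d + 1 → affineSpan ℝ (S : Set (E d)) = ⊤ := by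
    intro S hS hSc
    have h1 := hG S hS hSc.le
    have h2 := (h1.affineSpan_eq_top_iff_card_eq_finrank_add_one).2 (by simp [hSc])
    rwa [Subtype.range_coe] at h2
  constructor
  · obtain ⟨S, hS, hSc⟩ := Finset.exists_subset_card_eq hV
    have h1 := hspan S hS hSc
    have h2 : (affineSpan ℝ (S : Set (E d))) ≤ affineSpan ℝ (V : Set (E d)) :=
      affineSpan_mono ℝ (by exact_mod_cast hS)
    rw [h1] at h2
    exact top_le_iff.1 h2
  · rintro A ⟨l, hl⟩ hAV
    set A' : Finset (E d) := V.filter fun y => y ∈ A with hA'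
    have hAA' : (A' : Set (E d)) = A := by
      ext y
      simp only [hA', Finset.coe_filter, Set.mem_ofPred_eq]
      exact ⟨fun h => h.2, fun h => ⟨((hl y).1 h).1, h⟩⟩
    by_cases hc : A'.card ≤ d + 1
    · have h1 := hG A' (Finset.filter_subset _ _) hc
      rw [← hAA']
      exact h1
    · exfalso
      apply hAV
      push Not at hc
      obtain ⟨S, hS, hSc⟩ := Finset.exists_subset_card_eq hc.le
      have hSV : S ⊆ V := hS.trans (Finset.filter_subset _ _)
      have h1 := hG S hSV hSc.le
      have h2 := hspan S hSV hSc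
      have hSne : S.Nonempty := by rw [← Finset.card_pos, hSc]; omega
      obtain ⟨s₀, hs₀⟩ := hSne
      have hmem : ∀ s ∈ S, s ∈ A := fun s hs => (Finset.mem_filter.1 (hS hs)).2
      have hconst : ∀ s ∈ S, l s = l s₀ := fun s hs =>
        le_antisymm (((hl s₀).1 (hmem _ hs₀)).2 s (hSV hs)) (((hl s).1 (hmem _ hs)).2 s₀ (hSV hs₀))
      let b : AffineBasis S ℝ (E d) := ⟨Subtype.val, h1, by rw [Subtype.range_coe]; exact h2⟩
      have hall : ∀ y, l y = l s₀ := by
        intro y
        have h3 := b.linear_combination_coord_eq_self y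
        conv_lhs => rw [← h3]
        rw [map_sum]
        simp only [map_smul, smul_eq_mul]
        have h4 : ∀ s : S, l (b s) = l s₀ := fun s => hconst s s.2
        simp only [h4]
        rw [← Finset.sum_mul, b.sum_coord_apply_eq_one, one_mul]
      ext y
      rw [hl y]
      constructor
      · exact fun h => h.1
      · exact fun h => ⟨h, fun w _ => by rw [hall w, hall y]⟩

end Pool.Agent.L7h29.IE
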