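import Pool.Agent.L7h31.IE.Stm

/-!
# Project IE: part GEN
-/

set_option autoImplicit false

namespace Pool.Agent.L7h29.IE

open scoped InnerProductSpace
open Pool.Agent.L7h31.IE MeasureTheory

/-- a new point in general position -/
theorem genpos_insert (d : ℕ) (hd : 1 ≤ d) [DecidableEq (E d)] (V : Finset (E d)) (hV : GenPos V)
    (U : Set (E d)) (hU : IsOpen U) (hne : U.Nonempty) :
    ∃ y ∈ U, y ∉ V ∧ GenPos (insert y V) := by
  -- the finitely many subspaces
  have hnull : ∀ S : Finset (E d), S ⊆ V → S.card ≤ d →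
      (volume : Measure (E d)) (affineSpan ℝ (S : Set (E d)) : Set (E d)) = 0 := by
    intro S hS hSc
    apply Measure.addHaar_affineSubspace
    intro htop
    have h1 := hV S hS (by omega)
    have h2 := (h1.affineSpan_eq_top_iff_card_eq_finrank_add_one).1
      (by rw [Subtype.range_coe]; exact htop)
    simp at h2
    omega
  set T : Finset (Finset (E d)) := V.powerset.filter fun S => S.card ≤ d with hT
  have hTm : ∀ S, S ∈ T ↔ S ⊆ V ∧ S.card ≤ d := by intro S; simp [hT]
  have hu : (volume : Measure (E d)) (⋃ S ∈ T, (affineSpan ℝ (S : Set (E d)) : Set (E d))) = 0 := by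
    show (volume : Measure (E d)) (⋃ S ∈ (T : Set (Finset (E d))),
      (affineSpan ℝ (S : Set (E d)) : Set (E d))) = 0
    rw [measure_biUnion_null_iff T.countable_toSet]
    intro S hS
    exact hnull S ((hTm S).1 hS).1 ((hTm S).1 hS).2
  have hpos : 0 < (volume : Measure (E d)) U := hU.measure_pos _ hne
  obtain ⟨y, hyU, hyT⟩ : ∃ y ∈ U, y ∉ ⋃ S ∈ T, (affineSpan ℝ (S : Set (E d)) : Set (E d)) := by
    by_contra hcon
    push Not at hcon
    have h1 := measure_mono_null (fun y hy => hcon y hy) hu
    rw [h1] at hpos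
    exact lt_irrefl _ hpos
  have hyT' : ∀ S : Finset (E d), S ⊆ V → S.card ≤ d → y ∉ affineSpan ℝ (S : Set (E d)) := by
    intro S hS hSc hy
    apply hyT
    rw [Set.mem_iUnion₂]
    exact ⟨S, (hTm S).2 ⟨hS, hSc⟩, hy⟩
  have hyV : y ∉ V := by
    intro hy
    apply hyT' {y} (Finset.singleton_subset_iff.2 hy) (by rw [Finset.card_singleton]; exact hd)
    apply subset_affineSpan
    simp
  refine ⟨y, hyU, hyV, fun S hS hSc => ?_⟩
  by_cases hyS : y ∈ S
  · set S' := S.erase y with hS'
    have hS'V : S' ⊆ V := by
      intro z hz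
      rw [hS', Finset.mem_erase] at hz
      rcases Finset.mem_insert.1 (hS hz.2) with h | h
      · exact absurd h hz.1
      · exact h
    have hS'c : S'.card ≤ d := by
      have h0 : S'.card = S.card - 1 := by rw [hS']; exact Finset.card_erase_of_mem hyS
      omega
    have h1 := hV S' hS'V (by omega)
    apply AffineIndependent.affineIndependent_of_notMem_span (i := (⟨y, hyS⟩ : S))
    · let f : {z : S // z ≠ ⟨y, hyS⟩} ↪ S' :=
        ⟨fun z => ⟨z.1.1, by
          rw [hS', Finset.mem_erase]
          exact ⟨fun h => z.2 (Subtype.ext h), z.1.2⟩⟩, fun z w h => by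
            apply Subtype.ext
            apply Subtype.ext
            have h' := congrArg (fun u : S' => (u : E d)) h
            exact h'⟩
      exact h1.comp_embedding f
    · have h2 : (Subtype.val : S → E d) '' {x | x ≠ ⟨y, hyS⟩} = (S' : Set (E d)) := by
        ext z
        simp only [Set.mem_image, Set.mem_ofPred_eq, Finset.mem_coe, hS', Finset.mem_erase]
        constructor
        · rintro ⟨w, hw, rfl⟩
          exact ⟨fun h => hw (Subtype.ext h), w.2⟩
        · rintro ⟨h3, h4⟩
          exact ⟨⟨z, h4⟩, fun h => h3 (congrArg Subtype.val h), rfl⟩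
      rw [h2]
      exact hyT' S' hS'V hS'c
  · exact hV S (fun z hz => by
      rcases Finset.mem_insert.1 (hS hz) with h | h
      · rw [h] at hz; exact absurd hz hyS
      · exact h) hSc

theorem s_GEN : S_GEN := by
  classical
  intro d κ _ X U hd hX hU hne
  have key : ∀ s : Finset κ, ∃ t : κ → E d, (∀ I ∈ s, t I ∈ U I) ∧ Set.InjOn t s ∧
      (∀ I ∈ s, t I ∉ X) ∧ GenPos (X ∪ s.image t) := by
    intro s
    induction s using Finset.induction_on with
    | empty =>
      refine ⟨fun _ => 0, by simp, by simp, by simp, ?_⟩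
      simpa using hX
    | insert I₀ s hI₀ ih =>
      obtain ⟨t, h1, h2, h3, h4⟩ := ih
      obtain ⟨y, hyU, hyV, hy⟩ := genpos_insert d hd _ h4 (U I₀) (hU I₀) (hne I₀)
      have hyX : y ∉ X := fun h => hyV (Finset.mem_union_left _ h)
      have hyt : ∀ I ∈ s, t I ≠ y := fun I hI h =>
        hyV (Finset.mem_union_right _ (Finset.mem_image.2 ⟨I, hI, h⟩))
      have hne' : ∀ I ∈ s, I ≠ I₀ := fun I hI h => hI₀ (h ▸ hI)
      have hup : ∀ I ∈ s, Function.update t I₀ y I = t I := fun I hI =>
        Function.update_of_ne (hne' I hI) _ _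
      have hup0 : Function.update t I₀ y I₀ = y := Function.update_self _ _ _
      refine ⟨Function.update t I₀ y, ?_, ?_, ?_, ?_⟩
      · intro I hI
        rcases Finset.mem_insert.1 hI with rfl | hI
        · rw [hup0]; exact hyU
        · rw [hup I hI]; exact h1 I hI
      · intro I hI J hJ hIJ
        rw [Finset.mem_coe] at hI hJ
        rcases Finset.mem_insert.1 hI with hI' | hI'
        · rcases Finset.mem_insert.1 hJ with hJ' | hJ'
          · rw [hI', hJ']
          · rw [hI', hup0, hup J hJ'] at hIJ
            exact absurd hIJ.symm (hyt J hJ')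
        · rcases Finset.mem_insert.1 hJ with hJ' | hJ'
          · rw [hJ', hup0, hup I hI'] at hIJ
            exact absurd hIJ (hyt I hI')
          · rw [hup I hI', hup J hJ'] at hIJ
            exact h2 hI' hJ' hIJ
      · intro I hI
        rcases Finset.mem_insert.1 hI with rfl | hI
        · rw [hup0]; exact hyX
        · rw [hup I hI]; exact h3 I hI
      · have h5 : X ∪ (insert I₀ s).image (Function.update t I₀ y) =
            insert y (X ∪ s.image t) := by
          rw [Finset.image_insert, hup0, Finset.union_insert]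
          congr 2
          exact Finset.image_congr fun I hI => hup I hI
        rw [h5]
        exact hy
  obtain ⟨t, h1, h2, h3, h4⟩ := key Finset.univ
  refine ⟨t, fun I => h1 I (Finset.mem_univ I), fun I J h => h2 (by simp) (by simp) h,
    fun I => h3 I (Finset.mem_univ I), fun V hV => ?_⟩
  have h5 : V = X ∪ Finset.univ.image t := by
    ext y
    rw [hV y, Finset.mem_union, Finset.mem_image]
    constructor
    · rintro (h | ⟨I, h⟩)
      · exact Or.inl h
      · exact Or.inr ⟨I, Finset.mem_univ I, h.symm⟩
    · rintro (h | ⟨I, -, h⟩)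
      · exact Or.inl h
      · exact Or.inr ⟨I, h.symm⟩
  rw [h5]
  exact h4

end Pool.Agent.L7h29.IE
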