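import Pool.Agent.L7h31.IE.Stm

/-!
# Project IE: parts STAR and LIN
-/

set_option autoImplicit false

namespace Pool.Agent.L7h29.IE

open scoped InnerProductSpace
open Pool.Agent.L7h31.IE

/-- the functional of one of the faces -/
theorem face_fun {d : ℕ} {ι : Type} (W : Finset (E d)) (t : E d) (F : ι → E d)
    (hF : ∀ i, F i ∈ W) (hFt : ∀ i, F i ≠ t) (hinj : Function.Injective F) (i : ι)
    (h : IsFace W (insert t {y | ∃ j, j ≠ i ∧ y = F j})) :
    ∃ l : E d →L[ℝ] ℝ, (∀ j, j ≠ i → l (F j) = l t) ∧ l (F i) < l t ∧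
      (∀ y ∈ W, l y ≤ l t) ∧ ∀ y ∈ W, y ≠ t → (∀ j, j ≠ i → y ≠ F j) → l y < l t := by
  obtain ⟨l, hl⟩ := h
  have ht := (hl t).1 (Set.mem_insert _ _)
  have hlt : ∀ y ∈ W, y ≠ t → (∀ j, j ≠ i → y ≠ F j) → l y < l t := by
    intro y hy hyt hyF
    refine lt_of_le_of_ne (ht.2 y hy) fun heq => ?_
    have h1 : y ∈ (insert t {y | ∃ j, j ≠ i ∧ y = F j} : Set (E d)) :=
      (hl y).2 ⟨hy, fun w hw => by rw [heq]; exact ht.2 w hw⟩
    rcases h1 with h1 | ⟨j, hj, h1⟩
    · exact hyt h1
    · exact hyF j hj h1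
  refine ⟨l, fun j hj => ?_, ?_, ht.2, hlt⟩
  · have h1 := (hl (F j)).1 (Or.inr ⟨j, hj, rfl⟩)
    exact le_antisymm (ht.2 _ (hF j)) (h1.2 _ ht.1)
  · exact hlt _ (hF i) (hFt i) fun j hj h1 => hj (hinj h1).symm

theorem s_LIN : S_LIN := by
  intro d ι _ W t F c r ht hF hFt hinj hr hface
  rw [Fintype.linearIndependent_iff]
  intro g hg k
  obtain ⟨l, h1, h2, -, -⟩ := face_fun W t F hF hFt hinj k (hface k)
  have e1 : ∑ i, g i • (r⁻¹ • (F i - c)) = 0 := by
    have := congrArg Prod.fst hg
    simpa [lift, Prod.fst_sum] using this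
  have e2 : ∑ i, g i = 0 := by
    have := congrArg Prod.snd hg
    simpa [lift, Prod.snd_sum] using this
  have e3 : ∑ i, g i * (l (F i) - l c) = 0 := by
    have h3 := congrArg l e1
    rw [map_sum, map_zero] at h3
    simp only [map_smul, map_sub, smul_eq_mul] at h3
    have h4 : ∑ i, g i * (l (F i) - l c) = r * ∑ i, g i * (r⁻¹ * (l (F i) - l c)) := by
      rw [Finset.mul_sum]
      refine Finset.sum_congr rfl fun i _ => ?_
      field_simp
    rw [h4, h3, mul_zero]
  have e4 : ∑ i, g i * (l (F i) - l t) = 0 := by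
    have h5 : ∑ i, g i * (l (F i) - l t) = ∑ i, g i * (l (F i) - l c) + (l c - l t) * ∑ i, g i := by
      rw [Finset.mul_sum, ← Finset.sum_add_distrib]
      exact Finset.sum_congr rfl fun i _ => by ring
    rw [h5, e3, e2]; ring
  rw [Finset.sum_eq_single k] at e4
  · rcases mul_eq_zero.1 e4 with h | h
    · exact h
    · linarith
  · intro j _ hj
    rw [h1 j hj, sub_self, mul_zero]
  · intro h
    exact absurd (Finset.mem_univ k) h

theorem s_STAR : S_STAR := by
  classical
  intro d ι _ W t F hcard ht hF hFt hinj hvert hface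
  choose l hl1 hl2 hl3 hl4 using fun i => face_fun W t F hF hFt hinj i (hface i)
  have hneg : ∀ i, l i (F i) - l i t ≠ 0 := fun i => by have := hl2 i; linarith
  -- the basis
  have hlin : LinearIndependent ℝ (fun i => F i - t) := by
    rw [Fintype.linearIndependent_iff]
    intro g hg k
    have h3 := congrArg (l k) hg
    rw [map_sum, map_zero] at h3
    simp only [map_smul, map_sub, smul_eq_mul] at h3
    rw [Finset.sum_eq_single k] at h3
    · rcases mul_eq_zero.1 h3 with h | h
      · exact h
      · exact absurd h (hneg k)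
    · intro j _ hj
      rw [hl1 k j hj, sub_self, mul_zero]
    · intro h
      exact absurd (Finset.mem_univ k) h
  have hspan : ∀ v : E d, ∃ s : ι → ℝ, ∑ i, s i • (F i - t) = v := by
    intro v
    have h1 := hlin.span_eq_top_of_card_eq_finrank' (by rw [hcard]; simp)
    rw [← Submodule.mem_span_range_iff_exists_fun, h1]
    trivial
  have hrep : ∀ v : E d, v = ∑ i, (l i v / (l i (F i) - l i t)) • (F i - t) := by
    intro v
    obtain ⟨s, hs⟩ := hspan v
    have h1 : ∀ k, s k = l k v / (l k (F k) - l k t) := by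
      intro k
      have h3 := congrArg (l k) hs
      rw [map_sum] at h3
      simp only [map_smul, map_sub, smul_eq_mul] at h3
      rw [Finset.sum_eq_single k] at h3
      · rw [eq_div_iff (hneg k)]; exact h3
      · intro j _ hj
        rw [hl1 k j hj, sub_self, mul_zero]
      · intro h
        exact absurd (Finset.mem_univ k) h
    conv_lhs => rw [← hs]
    exact Finset.sum_congr rfl fun i _ => by rw [h1 i]
  -- the affine functionals
  set β : ι → (E d →ᵃ[ℝ] ℝ) := fun i =>
    (l i : E d →ₗ[ℝ] ℝ).toAffineMap - AffineMap.const ℝ (E d) (l i t) with hβ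
  have hβa : ∀ i y, β i y = l i y - l i t := fun i y => rfl
  set α : E d →ᵃ[ℝ] ℝ := AffineMap.const ℝ (E d) (1 : ℝ) -
    ∑ i, (l i (F i) - l i t)⁻¹ • β i with hα
  have hαa : ∀ y, α y = 1 - ∑ i, (l i y - l i t) / (l i (F i) - l i t) := by
    intro y
    have h1 : (∑ i, (l i (F i) - l i t)⁻¹ • β i : E d →ᵃ[ℝ] ℝ) y =
        ∑ i, (l i y - l i t) / (l i (F i) - l i t) := by
      have h2 : ∀ s : Finset ι, (∑ i ∈ s, (l i (F i) - l i t)⁻¹ • β i : E d →ᵃ[ℝ] ℝ) y =
          ∑ i ∈ s, (l i y - l i t) / (l i (F i) - l i t) := by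
        intro s
        induction s using Finset.induction_on with
        | empty => simp
        | insert a s ha ih =>
          rw [Finset.sum_insert ha, Finset.sum_insert ha, AffineMap.coe_add, Pi.add_apply, ih]
          congr 1
          show (l a (F a) - l a t)⁻¹ • (l a y - l a t) = _
          rw [smul_eq_mul]
          ring
      exact h2 _
    show (1 : ℝ) - (∑ i, (l i (F i) - l i t)⁻¹ • β i : E d →ᵃ[ℝ] ℝ) y = _
    rw [h1]
  refine ⟨α, β, ?_, ?_, ?_, ?_, ?_, ?_, ?_⟩
  · rw [hαa]
    simp
  · intro j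
    rw [hαa, Finset.sum_eq_single j]
    · rw [div_self (hneg j), sub_self]
    · intro i _ hij
      rw [hl1 i j hij.symm, sub_self, zero_div]
    · intro h
      exact absurd (Finset.mem_univ j) h
  · intro y hy hyt hyF
    by_contra hcon
    push Not at hcon
    apply hvert y hy
    set w : Option ι → ℝ := fun o => o.elim (α y) fun i => (l i y - l i t) / (l i (F i) - l i t)
      with hw
    set z : Option ι → E d := fun o => o.elim t F with hz
    have hw0 : ∀ o, 0 ≤ w o := by
      rintro (_ | i)
      · exact hcon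
      · exact div_nonneg_of_nonpos (by have := hl3 i y hy; linarith)
          (by have := hl2 i; linarith)
    have hw1 : ∑ o, w o = 1 := by
      rw [Fintype.sum_option]
      show α y + ∑ i, (l i y - l i t) / (l i (F i) - l i t) = 1
      rw [hαa]; ring
    have hwz : ∑ o, w o • z o = y := by
      rw [Fintype.sum_option]
      show α y • t + ∑ i, ((l i y - l i t) / (l i (F i) - l i t)) • F i = y
      have h1 := hrep (y - t)
      simp only [map_sub, smul_sub, Finset.sum_sub_distrib, ← Finset.sum_smul] at h1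
      rw [hαa, sub_smul, one_smul]
      have h2 : y = (y - t) + t := by abel
      conv_rhs => rw [h2, h1]
      abel
    rw [← hwz]
    apply (convex_convexHull ℝ _).sum_mem (fun o _ => hw0 o) hw1
    rintro (_ | i) -
    · apply subset_convexHull
      rw [hwz]
      exact ⟨ht, fun h => hyt h.symm⟩
    · apply subset_convexHull
      rw [hwz]
      exact ⟨hF i, fun h => hyF i h.symm⟩
  · intro i
    rw [hβa]; ring
  · intro i j hj
    rw [hβa, hl1 i j hj]; ring
  · intro i y hy hyt hyF
    rw [hβa]
    have := hl4 i y hy hyt hyF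
    linarith
  · intro φ hφt hφF
    ext y
    have h1 : φ y = φ.linear (y - t) + φ t := by
      have := φ.map_vadd t (y - t)
      simpa using this
    have h2 : ∀ i, φ.linear (F i - t) = 0 := by
      intro i
      have := φ.linearMap_vsub (F i) t
      rw [vsub_eq_sub, vsub_eq_sub, hφt, hφF] at this
      simpa using this
    rw [h1, hφt, hrep (y - t), map_sum]
    simp only [map_smul, h2, smul_zero, Finset.sum_const_zero, add_zero]
    rfl

end Pool.Agent.L7h29.IE
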